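import Mathlib
import Pool.Agent.Results.MP_72b677_al.DerivationLength

/-! MP_72b677_al, Q1: over one algebra, the inequality fails by an arbitrarily large amount, for
modules that have any given module as a direct summand. -/

set_option autoImplicit false

namespace Pool.Agent.Results.MP_72b677_al.LargeDefect

open IsLocalRing

universe u

section
variable {k A : Type u} [Field k] [CommRing A] [Algebra k A]

lemma der_prod (N M : Type u) [AddCommGroup N] [Module k N] [Module A N] [IsScalarTower k A N]
    [AddCommGroup M] [Module k M] [Module A M] [IsScalarTower k A M] :
    Module.length A (Derivation k A (N × M)) ≤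
      Module.length A (Derivation k A N) + Module.length A (Derivation k A M) := by
  rw [← Module.length_prod]
  refine Module.length_le_of_injective
    ((LinearMap.fst A N M).compDer.prod (LinearMap.snd A N M).compDer) ?_
  intro d e h
  apply Derivation.ext
  intro a
  exact Prod.ext (congrArg (fun p : Derivation k A N × Derivation k A M => p.1 a) h)
    (congrArg (fun p : Derivation k A N × Derivation k A M => p.2 a) h)

lemma der_pi (n : ℕ) (M : Type u) [AddCommGroup M] [Module k M] [Module A M]
    [IsScalarTower k A M] :
    Module.length A (Derivation k A (Fin n → M)) ≤ n * Module.length A (Derivation k A M) := by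
  have h0 : Module.length A (Fin n → Derivation k A M) = n * Module.length A (Derivation k A M) := by
    rw [Module.length_pi]
    simp
  rw [← h0]
  refine Module.length_le_of_injective
    (LinearMap.pi fun i => (LinearMap.proj (R := A) (φ := fun _ : Fin n => M) i).compDer) ?_
  intro d e h
  apply Derivation.ext
  intro a
  funext i
  exact congrArg (fun p : Fin n → Derivation k A M => p i a) h

variable [IsLocalRing A]

/-- The socle. -/
abbrev Soc (A : Type u) [CommRing A] [IsLocalRing A] (M : Type u) [AddCommGroup M] [Module A M] :
    Submodule A M :=
  Submodule.torsionBySet A M (maximalIdeal A : Set A)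

lemma soc_map {M N : Type u} [AddCommGroup M] [Module A M] [AddCommGroup N] [Module A N]
    (f : M →ₗ[A] N) (x : Soc A M) : f x ∈ Soc A N := by
  rw [Submodule.mem_torsionBySet_iff]
  intro a
  have h1 := (Submodule.mem_torsionBySet_iff _ _).1 x.2 a
  have h2 : f (a.1 • x.1) = 0 := by
    have h3 : a.1 • x.1 = 0 := h1
    rw [h3, map_zero]
  rw [map_smul] at h2
  exact h2

lemma soc_prod (N M : Type u) [AddCommGroup N] [Module A N] [AddCommGroup M] [Module A M] :
    Module.length A (Soc A (N × M)) ≤ Module.length A (Soc A N) + Module.length A (Soc A M) := by
  rw [← Module.length_prod]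
  refine Module.length_le_of_injective
    ((((LinearMap.fst A N M).comp (Soc A (N × M)).subtype).codRestrict (Soc A N)
      (soc_map (LinearMap.fst A N M))).prod
    (((LinearMap.snd A N M).comp (Soc A (N × M)).subtype).codRestrict (Soc A M)
      (soc_map (LinearMap.snd A N M)))) ?_
  intro x y h
  apply Subtype.ext
  exact Prod.ext (congrArg (fun p : Soc A N × Soc A M => (p.1 : N)) h)
    (congrArg (fun p : Soc A N × Soc A M => (p.2 : M)) h)

lemma soc_pi (n : ℕ) (M : Type u) [AddCommGroup M] [Module A M] :
    Module.length A (Soc A (Fin n → M)) ≤ n * Module.length A (Soc A M) := by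
  have h0 : Module.length A (Fin n → Soc A M) = n * Module.length A (Soc A M) := by
    rw [Module.length_pi]
    simp
  rw [← h0]
  refine Module.length_le_of_injective
    (LinearMap.pi fun i => ((LinearMap.proj (R := A) (φ := fun _ : Fin n => M) i).comp
      (Soc A (Fin n → M)).subtype).codRestrict (Soc A M)
        (soc_map (LinearMap.proj (R := A) (φ := fun _ : Fin n => M) i))) ?_
  intro x y h
  apply Subtype.ext
  funext i
  exact congrArg (fun p : Fin n → Soc A M => (p i : M)) h

end

/-- Over every field `k` of characteristic zero there is a finite dimensional local algebra `A` with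
residue field `k` such that every finitely generated `A`-module `N` is a direct summand of finitely
generated modules `N × M` for which `l(M) - l(s(M)) - l(D(M))` is arbitrarily large. -/
theorem result (k : Type u) [Field k] [CharZero k] :
    ∃ (A : Type u) (_ : CommRing A) (_ : IsLocalRing A) (_ : Algebra k A),
      Module.Finite k A ∧
      Function.Bijective (algebraMap k (IsLocalRing.ResidueField A)) ∧
      ∀ (N : Type u) [AddCommGroup N] [Module k N] [Module A N] [IsScalarTower k A N]
        [Module.Finite A N] (C : ℕ),
        ∃ (M : Type u) (_ : AddCommGroup M) (_ : Module k M) (_ : Module A M)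
          (_ : IsScalarTower k A M), Module.Finite A M ∧
          Module.length A (Derivation k A (N × M)) +
            Module.length A (Submodule.torsionBySet A (N × M)
              (IsLocalRing.maximalIdeal A : Set A)) + C ≤
            Module.length A (N × M) := by
  obtain ⟨A, _, _, _, hA, M, _, _, _, _, h1, h2, h3⟩ := DerivationLength.result k
  refine ⟨A, inferInstance, inferInstance, inferInstance, hA, h1, fun N _ _ _ _ _ C => ?_⟩
  have hAr : IsArtinianRing A := isArtinian_of_tower k inferInstance
  have hNk : Module.Finite k N := Module.Finite.trans A N
  have hD : Module.Finite k (Derivation k A N) :=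
    Module.Finite.of_injective
      ({ toFun := fun d => (d : A →ₗ[k] N)
         map_add' := fun _ _ => rfl
         map_smul' := fun _ _ => rfl } : Derivation k A N →ₗ[k] (A →ₗ[k] N))
      (fun d e h => Derivation.ext fun a => congrArg (fun f : A →ₗ[k] N => f a) h)
  have a1 : IsNoetherian A (Derivation k A N) := isNoetherian_of_tower k inferInstance
  have a2 : IsArtinian A (Derivation k A N) := isArtinian_of_tower k inferInstance
  have b1 : Module.length A (Derivation k A N) ≠ ⊤ := Module.length_ne_top
  have b2 : Module.length A (Soc A N) ≠ ⊤ := Module.length_ne_top
  obtain ⟨m1, hm1⟩ := ENat.ne_top_iff_exists.1 b1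
  obtain ⟨m2, hm2⟩ := ENat.ne_top_iff_exists.1 b2
  set n : ℕ := m1 + m2 + C with hn
  refine ⟨Fin n → M, inferInstance, inferInstance, inferInstance, inferInstance, inferInstance, ?_⟩
  have c1 := der_prod (k := k) (A := A) N (Fin n → M)
  have c2 := der_pi (k := k) (A := A) n M
  have c3 := soc_prod (A := A) N (Fin n → M)
  have c4 := soc_pi (A := A) n M
  have c5 : Module.length A (Fin n → M) = n * Module.length A M := by
    rw [Module.length_pi]
    simp
  have c6 : Module.length A (Derivation k A M) + Module.length A (Soc A M) + 1
      ≤ Module.length A M := Order.add_one_le_of_lt h3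
  calc Module.length A (Derivation k A (N × (Fin n → M))) +
        Module.length A (Soc A (N × (Fin n → M))) + C
      ≤ (Module.length A (Derivation k A N) + n * Module.length A (Derivation k A M)) +
        (Module.length A (Soc A N) + n * Module.length A (Soc A M)) + C := by
        gcongr
        · exact c1.trans (by gcongr)
        · exact c3.trans (by gcongr)
    _ = n * (Module.length A (Derivation k A M) + Module.length A (Soc A M) + 1) := by
        rw [← hm1, ← hm2, hn]
        push_cast
        ring
    _ ≤ n * Module.length A M := by gcongr
    _ = Module.length A (Fin n → M) := c5.symm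
    _ ≤ Module.length A (N × (Fin n → M)) := by
        rw [Module.length_prod]
        exact le_add_self

end Pool.Agent.Results.MP_72b677_al.LargeDefect
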